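import Mathlib

namespace Pool.Agent.Results.MP_6859a2_co.Exact

open Finset SimpleGraph Classical

/-- No induced `K_{1,3}`. -/
def ClawFree {V : Type} (G : SimpleGraph V) : Prop :=
  ∀ v a b c, G.Adj v a → G.Adj v b → G.Adj v c → a ≠ b → a ≠ c → b ≠ c →
    G.Adj a b ∨ G.Adj a c ∨ G.Adj b c

/-- `G` is `c`-connected. -/
def Conn {V : Type} [Fintype V] (c : ℕ) (G : SimpleGraph V) : Prop :=
  c < Fintype.card V ∧ ∀ S : Finset V, #S < c → (G.induce (S : Set V)ᶜ).Connected

/-- The vertices of `A` are separated by pairwise vertex-disjoint cycles. -/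
def Sep {V : Type} (G : SimpleGraph V) (A : Finset V) : Prop :=
  ∃ C : ∀ v, G.Walk v v, (∀ v ∈ A, (C v).IsCycle) ∧
    ∀ v ∈ A, ∀ w ∈ A, v ≠ w → ∀ x ∈ (C v).support, x ∉ (C w).support

variable {V : Type} [Fintype V] {G : SimpleGraph V} {c : ℕ}

theorem path (h : Conn c G) {T : Finset V} (hT : #T < c) {a b : V} (ha : a ∉ T) (hb : b ∉ T) :
    ∃ p : G.Walk a b, p.IsPath ∧ ∀ x ∈ p.support, x ∉ T := by
  obtain ⟨p⟩ := (h.2 T hT).preconnected ⟨a, ha⟩ ⟨b, hb⟩
  refine ⟨(p.map (Embedding.induce _).toHom).bypass, Walk.bypass_isPath _, fun x hx => ?_⟩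
  have := Walk.support_bypass_subset_support _ hx
  erw [Walk.support_map] at this
  obtain ⟨y, -, rfl⟩ := List.mem_map.1 this
  exact y.2

theorem nb (h : Conn c G) {T : Finset V} (hT : #T < c) {v : V} (hv : v ∉ T) :
    ∃ w ∉ T, G.Adj v w := by
  obtain ⟨u, -, hu⟩ := exists_mem_notMem_of_card_lt_card (s := insert v T) (t := univ) (by
    have := h.1
    rw [card_insert_of_notMem hv, card_univ]
    omega)
  obtain ⟨p, -, hp⟩ := path h hT hv fun e => hu (mem_insert_of_mem e)
  cases p with
  | nil => simp at hu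
  | cons e p => exact ⟨_, hp _ (by simp), e⟩

omit [Fintype V] in
theorem cyc {v a b : V} (ha : G.Adj v a) (hb : G.Adj v b) (ne : a ≠ b) (p : G.Walk a b)
    (hp : p.IsPath) (hv : v ∉ p.support) :
    ∃ q : G.Walk v v, q.IsCycle ∧ ∀ x ∈ q.support, x = v ∨ x ∈ p.support := by
  refine ⟨Walk.cons ha (p.concat hb.symm), (Walk.cons_isCycle_iff _ _).2
    ⟨(Walk.concat_isPath_iff _).2 ⟨hp, hv⟩, fun e => ?_⟩, fun x hx => ?_⟩
  · rw [Walk.edges_concat, List.concat_eq_append, List.mem_append] at e
    rcases e with e | e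
    · exact hv (p.fst_mem_support_of_mem_edges e)
    · simp [ne, hb.ne] at e
  · simp only [Walk.support_cons, Walk.support_concat, List.mem_cons,
      List.mem_append, List.not_mem_nil] at hx
    tauto

theorem tri (hc : ClawFree G) (h : Conn c G) {T : Finset V} (hT : #T + 2 < c) {v : V}
    (hv : v ∉ T) : ∃ a ∉ T, ∃ b ∉ T, G.Adj v a ∧ G.Adj v b ∧ G.Adj a b := by
  obtain ⟨a, a1, a2⟩ := nb h (by omega) hv
  obtain ⟨b, b1, b2⟩ := nb h (T := insert a T) (v := v)
    (by have := card_insert_le a T; omega) (by simp [hv, a2.ne])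
  obtain ⟨d, d1, d2⟩ := nb h (T := insert b (insert a T)) (v := v)
    (by have := card_insert_le a T; have := card_insert_le b (insert a T); omega)
    (by simp [hv, a2.ne, b2.ne])
  simp only [mem_insert, not_or] at b1 d1
  rcases hc v a b d a2 b2 d2 (Ne.symm b1.1) (Ne.symm d1.2.1) (Ne.symm d1.1) with e | e | e
  · exact ⟨a, a1, b, b1.2, a2, b2, e⟩
  · exact ⟨a, a1, d, d1.2.2, a2, d2, e⟩
  · exact ⟨b, b1.2, d, d1.2.2, b2, d2, e⟩

theorem up (hc : ClawFree G) (h : Conn c G) (A : Finset V) : ∀ T : Finset V, (∀ v ∈ A, v ∉ T) →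
    #T + 3 * #A ≤ c + 1 ∨ A = ∅ → ∃ C : ∀ v, G.Walk v v, (∀ v ∈ A, (C v).IsCycle ∧
      ∀ x ∈ (C v).support, x ∉ T) ∧
      ∀ v ∈ A, ∀ w ∈ A, v ≠ w → ∀ x ∈ (C v).support, x ∉ (C w).support := by
  induction A using Finset.induction_on with
  | empty => exact fun _ _ _ => ⟨fun _ => .nil, by simp, by simp⟩
  | insert v A hv ih =>
    intro T hT hn
    have hn := hn.resolve_right (insert_ne_empty _ _)
    rw [card_insert_of_notMem hv] at hn
    have vT := hT v (mem_insert_self _ _)
    obtain ⟨q, q1, S, q2, q3, q4⟩ : ∃ q : G.Walk v v, q.IsCycle ∧ ∃ S : Finset V,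
        (∀ x ∈ q.support, x ∈ S) ∧ (∀ x ∈ S, x ∉ T ∧ x ∉ A) ∧ (#S ≤ 3 ∨ A = ∅) := by
      rcases A.eq_empty_or_nonempty with rfl | ne
      · obtain ⟨a, a1, a2⟩ := nb h (by omega) vT
        obtain ⟨b, b1, b2⟩ := nb h (T := insert a T) (v := v)
          (by have := card_insert_le a T; omega) (by simp [vT, a2.ne])
        simp only [mem_insert, not_or] at b1
        obtain ⟨p, p1, p2⟩ := path h (T := insert v T) (a := a) (b := b)
          (by have := card_insert_le v T; omega) (by simp [a1, a2.ne']) (by simp [b1.2, b2.ne'])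
        obtain ⟨q, q1, q2⟩ := cyc a2 b2 (Ne.symm b1.1) p p1 fun e => p2 v e (mem_insert_self _ _)
        refine ⟨q, q1, Tᶜ, fun x hx => mem_compl.2 ?_, by simp, Or.inr rfl⟩
        rcases q2 x hx with rfl | e
        · exact vT
        · exact fun t => p2 x e (mem_insert_of_mem t)
      · obtain ⟨a, a1, b, b1, a2, b2, e⟩ := tri hc h (T := T ∪ A) (v := v)
          (by have := card_union_le T A; have := ne.card_pos; omega) (by simp [vT, hv])
        obtain ⟨q, q1, q2⟩ := cyc a2 b2 e.ne (Walk.cons e .nil) (by simp [e.ne])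
          (by simp [a2.ne, b2.ne])
        refine ⟨q, q1, {v, a, b}, fun x hx => by simpa using q2 x hx, ?_, Or.inl card_le_three⟩
        simp only [mem_union, not_or] at a1 b1
        simp [vT, hv, a1, b1]
    obtain ⟨C, c1, c2⟩ := ih (T ∪ S) (fun w hw => by
      simp only [mem_union, not_or]
      exact ⟨hT w (mem_insert_of_mem hw), fun t => (q3 w t).2 hw⟩)
      (q4.imp_left fun t => by have := card_union_le T S; omega)
    have u : ∀ w ∈ A, Function.update C v q w = C w := fun w hw =>
      Function.update_of_ne (ne_of_mem_of_not_mem hw hv) _ _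
    refine ⟨Function.update C v q, fun w hw => ?_, fun w hw z hz ne x hx => ?_⟩
    · rcases mem_insert.1 hw with rfl | hw
      · rw [Function.update_self]
        exact ⟨q1, fun x hx => (q3 x (q2 x hx)).1⟩
      · rw [u w hw]
        exact ⟨(c1 w hw).1, fun x hx t => (c1 w hw).2 x hx (mem_union_left _ t)⟩
    · rcases mem_insert.1 hw with rfl | w1 <;> rcases mem_insert.1 hz with rfl | z1
      · exact absurd rfl ne
      · rw [Function.update_self] at hx
        rw [u z z1]
        exact fun t => (c1 z z1).2 x t (mem_union_right _ (q2 x hx))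
      · rw [u w w1] at hx
        rw [Function.update_self]
        exact fun t => (c1 w w1).2 x hx (mem_union_right _ (q2 x t))
      · rw [u w w1] at hx
        rw [u z z1]
        exact c2 w w1 z z1 ne x hx

theorem result (k : ℕ) (hk : 1 ≤ k) :
    IsLeast {c : ℕ | ∀ (V : Type) [Fintype V] (G : SimpleGraph V), ClawFree G → Conn c G →
      ∀ A : Finset V, #A = k → Sep G A} (3 * k - 1) := by
  refine ⟨fun V _ G hc h A hA => ?_, fun c hc => ?_⟩
  · obtain ⟨C, c1, c2⟩ := up hc h A ∅ (by simp) (Or.inl (by simp; omega))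
    exact ⟨C, fun v hv => (c1 v hv).1, c2⟩
  · by_contra n
    obtain ⟨A, -, hA⟩ := exists_subset_card_eq (s := (univ : Finset (Fin (3 * k - 1)))) (n := k)
      (by simp; omega)
    obtain ⟨C, c1, c2⟩ := hc (Fin (3 * k - 1)) ⊤ (fun _ _ _ _ _ _ _ e _ _ => Or.inl e)
      ⟨by simp; omega, fun S hS => by
        obtain ⟨u, -, hu⟩ := exists_mem_notMem_of_card_lt_card (s := S) (t := univ)
          (by simp; omega)
        have : Nonempty ((S : Set (Fin (3 * k - 1)))ᶜ : Set _) := ⟨⟨u, hu⟩⟩
        refine ⟨fun x y => ?_⟩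
        by_cases e : x = y
        · rw [e]
        · exact Adj.reachable fun t => e (Subtype.ext t)⟩ A hA
    have := card_le_univ (A.biUnion fun v => (C v).support.toFinset)
    rw [card_biUnion fun v hv w hw ne => disjoint_left.2 fun x a b =>
      c2 v hv w hw ne x (List.mem_toFinset.1 a) (List.mem_toFinset.1 b), Fintype.card_fin] at this
    have b := card_nsmul_le_sum A (fun v => #(C v).support.toFinset) 3 fun v hv => by
      have a := (c1 v hv).three_le_length
      have d := List.toFinset_card_of_nodup (c1 v hv).support_nodup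
      rw [List.length_tail, Walk.length_support] at d
      have : (C v).support.tail.toFinset ⊆ (C v).support.toFinset := fun x hx =>
        List.mem_toFinset.2 (List.mem_of_mem_tail (List.mem_toFinset.1 hx))
      have := card_le_card this
      omega
    rw [hA, smul_eq_mul] at b
    omega

end Pool.Agent.Results.MP_6859a2_co.Exact
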